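import Pool.Agent.V11233.TT.Pos

/-!
# Total termination is not modular for uncountable signatures
-/

set_option autoImplicit false

namespace Pool.Agent.V11233.TT

open Function Cardinal Ordinal

/-! ## The first system -/

/-- The symbols `zero`, `s`, `k n`. -/
inductive S1 : Type
  | zero : S1
  | s : S1
  | k (n : ℕ) : S1

/-- Their arities `0`, `1`, `2`. -/
@[reducible] def ar1 : S1 → ℕ
  | .zero => 0
  | .s => 1
  | .k _ => 2

/-- The term `s (s (… zero))` with `n` symbols `s`. -/
def num {V : Type} : ℕ → Term ar1 V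
  | 0 => .app S1.zero ![]
  | n + 1 => .app S1.s ![num n]

/-- The rules `k n (x, s ^ n zero) → k (n + 1) (x, x)`. -/
def R1 : Set (Term ar1 ℕ × Term ar1 ℕ) :=
  {p | ∃ n, p = (.app (S1.k n) ![.var 0, num n], .app (S1.k (n + 1)) ![.var 0, .var 0])}

theorem isTRS_R1 : IsTRS R1 where
  left := by
    rintro p ⟨n, rfl⟩ x
    simp
  vars := by
    rintro p ⟨n, rfl⟩ x ⟨i, hi⟩
    refine ⟨0, ?_⟩
    fin_cases i <;> exact hi

theorem tt_R1 : TotallyTerminating R1 := by
  obtain ⟨I, hz, hs, hk⟩ : ∃ I : Interp ar1 ℕ, (∀ xs, I .zero xs = 0) ∧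
      (∀ xs, I .s xs = xs 0 + 1) ∧
      ∀ n xs, I (.k n) xs = xs 0 + (xs 0 + 1 - n) ^ 2 + xs 1 :=
    ⟨fun f => match f with
      | .zero => fun _ => 0
      | .s => fun xs => xs 0 + 1
      | .k n => fun xs => xs 0 + (xs 0 + 1 - n) ^ 2 + xs 1, fun _ => rfl, fun _ => rfl,
      fun _ _ => rfl⟩
  have hnum : ∀ (n : ℕ) (v : ℕ → ℕ), (num n).eval I v = n := by
    intro n v
    induction n with
    | zero => simp only [num, Term.eval, hz]
    | succ n ih =>
      simp only [num, Term.eval, hs]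
      simpa using ih
  refine totallyTerminating_of_model ((· < ·) : ℕ → ℕ → Prop) I R1 ⟨?_, ?_⟩
  · rintro (_ | _ | n) xs i x hx
    · exact i.elim0
    · obtain rfl : i = 0 := Subsingleton.elim _ _
      rw [hs, hs]
      simpa using hx
    · rw [hk, hk]
      revert hx
      refine Fin.cases ?_ (fun j => ?_) i
      · intro hx
        have e1 : update xs 0 x 0 = x := update_self _ _ _
        have e2 : update xs 0 x 1 = xs 1 := update_of_ne (show (1 : Fin 2) ≠ 0 by decide) _ _
        rw [e1, e2]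
        have : (xs 0 + 1 - n) ^ 2 ≤ (x + 1 - n) ^ 2 := Nat.pow_le_pow_left (by omega) 2
        omega
      · obtain rfl : j = 0 := Subsingleton.elim _ _
        intro hx
        have e1 : update xs (Fin.succ 0) x 0 = xs 0 :=
          update_of_ne (show (0 : Fin 2) ≠ Fin.succ 0 by decide) _ _
        have e2 : update xs (Fin.succ 0) x 1 = x := update_self _ _ _
        rw [e1, e2]
        have hx' : xs 1 < x := hx
        omega
  · rintro p ⟨n, rfl⟩ v
    simp only [Term.eval, hk]
    have e1 : (num n : Term ar1 ℕ).eval I v = n := hnum n v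
    simp only [Matrix.cons_val_zero, Matrix.cons_val_one, e1, Term.eval]
    rcases le_or_gt n (v 0) with h | h
    · obtain ⟨m, hm⟩ : ∃ m, v 0 = n + m := ⟨v 0 - n, by omega⟩
      rw [hm, show n + m + 1 - (n + 1) = m by omega, show n + m + 1 - n = m + 1 by omega]
      nlinarith
    · have h2 : (v 0 + 1 - (n + 1)) ^ 2 ≤ (v 0 + 1 - n) ^ 2 := Nat.pow_le_pow_left (by omega) 2
      omega


/-! ## The second system -/

/-- A well-ordered set of order type `ω₁`. -/
abbrev Om : Type := (ℵ_ (1 : Ordinal.{0})).ord.ToType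

/-- The symbols `d γ`, `T β`, `L β n`, `U β γ n`. -/
inductive S2 : Type
  | d (γ : Om) : S2
  | T (β : Om) : S2
  | L (β : Om) (n : ℕ) : S2
  | U (β γ : Om) (n : ℕ) : S2

/-- Their arities `0`, `1`, `1`, `3`. -/
@[reducible] def ar2 : S2 → ℕ
  | .d _ => 0
  | .T _ => 1
  | .L _ _ => 1
  | .U _ _ _ => 3

/-- The rules `T β (x) → U β γ n (L β (n + 1) (x), L γ (n + 1) (x), x)` and
`U β γ n (L β n (x), L γ n (x), d γ) → T γ (x)`, for `β < γ`. -/
def R2 : Set (Term ar2 ℕ × Term ar2 ℕ) :=
  {p | ∃ (β γ : Om) (n : ℕ), β < γ ∧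
    (p = (.app (S2.T β) ![.var 0], .app (S2.U β γ n)
        ![.app (S2.L β (n + 1)) ![.var 0], .app (S2.L γ (n + 1)) ![.var 0], .var 0]) ∨
      p = (.app (S2.U β γ n) ![.app (S2.L β n) ![.var 0], .app (S2.L γ n) ![.var 0],
          .app (S2.d γ) ![]], .app (S2.T γ) ![.var 0]))}

theorem isTRS_R2 : IsTRS R2 where
  left := by
    rintro p ⟨β, γ, n, _, rfl | rfl⟩ x <;> simp
  vars := by
    rintro p ⟨β, γ, n, _, rfl | rfl⟩ x ⟨i, hi⟩
    · refine ⟨0, ?_⟩
      fin_cases i
      · obtain ⟨j, hj⟩ := hi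
        obtain rfl : j = 0 := Subsingleton.elim _ _
        exact hj
      · obtain ⟨j, hj⟩ := hi
        obtain rfl : j = 0 := Subsingleton.elim _ _
        exact hj
      · exact hi
    · obtain rfl : i = 0 := Subsingleton.elim _ _
      exact ⟨0, 0, hi⟩

/-! ### The order `Om` -/

theorem countable_Iic (j : Om) : Countable (Set.Iic j) := by
  have h1 : #(Set.Iio j) < ℵ_ (1 : Ordinal.{0}) := by
    have h2 : #(Set.Iio j) = (typein ((· < ·) : Om → Om → Prop) j).card := rfl
    rw [h2, ← Cardinal.lt_ord]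
    exact typein_lt_self j
  have h2 : #(Set.Iio j) ≤ ℵ₀ := Order.lt_succ_iff.1 (lt_of_lt_of_eq h1 succ_aleph0.symm)
  have h3 : (Set.Iio j).Countable := Cardinal.le_aleph0_iff_set_countable.1 h2
  have h4 : (Set.Iic j).Countable := by
    rw [← Set.Iio_union_right]
    exact h3.union (Set.countable_singleton j)
  exact h4.to_subtype

theorem uncountable_Om : ¬ Countable Om := by
  intro h
  have h1 : #Om ≤ ℵ₀ := Cardinal.mk_le_aleph0
  rw [Cardinal.mk_toType, card_ord] at h1
  exact absurd (aleph0_lt_aleph.2 zero_lt_one) (not_lt.2 h1)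

/-- The positions. -/
abbrev P : Type := Om ×ₗ Fin 4

/-- The carrier of the algebra: ordinals in Cantor normal form. -/
abbrev W : Type := Colex (P →₀ ℕ)

/-- The powers. -/
noncomputable def w (p : P) : W := toColex (Finsupp.single p 1)

theorem lt_w {x : W} {p : P} : x < w p ↔ ∀ q, p ≤ q → ofColex x q = 0 := by
  constructor
  · intro h
    obtain ⟨i, h1, h2⟩ := Finsupp.Colex.lt_iff.1 h
    have h3 : i = p := by
      by_contra hne
      have : ofColex (w p) i = 0 := Finsupp.single_eq_of_ne hne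
      omega
    subst h3
    intro q hq
    rcases hq.lt_or_eq with h4 | h4
    · have h5 := h1 q h4
      have h6 : ofColex (w i) q = 0 := Finsupp.single_eq_of_ne h4.ne'
      rw [h6] at h5
      exact h5
    · subst h4
      have h6 : ofColex (w i) i = 1 := Finsupp.single_eq_same
      have h7 : ofColex x i < 1 := by
        rw [h6] at h2
        exact h2
      omega
  · intro h
    refine Finsupp.Colex.lt_iff.2 ⟨p, fun q hq => ?_, ?_⟩
    · have h6 : ofColex (w p) q = 0 := Finsupp.single_eq_of_ne hq.ne'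
      rw [h6]
      exact h q hq.le
    · have h6 : ofColex (w p) p = 1 := Finsupp.single_eq_same
      rw [h6]
      have := h p le_rfl
      show ofColex x p < 1
      omega

theorem add_lt_w {x y : W} {p : P} (hx : x < w p) (hy : y < w p) : x + y < w p := by
  rw [lt_w] at hx hy ⊢
  intro q hq
  have h1 := hx q hq
  have h2 := hy q hq
  show ofColex x q + ofColex y q = 0
  omega

theorem w_strictMono : StrictMono w := Finsupp.Colex.single_strictMono

theorem single_lt_w {p q : P} (h : p < q) (k : ℕ) :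
    (toColex (Finsupp.single p k) : W) < w q := by
  rw [lt_w]
  intro r hr
  exact Finsupp.single_eq_of_ne (h.trans_le hr).ne'

theorem countable_Iio_w (x : W) : Countable {y : W // y < x} := by
  obtain ⟨p, hp⟩ : ∃ p : P, x < w p := by
    obtain ⟨j, hj⟩ : ∃ j : Om, ∀ q ∈ (ofColex x).support, (ofLex q).1 < j := by
      by_contra hcon
      push Not at hcon
      -- `Om` would be countable
      apply uncountable_Om
      have h1 : (Set.univ : Set Om) ⊆ ⋃ q ∈ (ofColex x).support, Set.Iic (ofLex q).1 := by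
        intro j _
        obtain ⟨q, hq1, hq2⟩ := hcon j
        simp only [Set.mem_iUnion]
        exact ⟨q, hq1, hq2⟩
      have h2 : (⋃ q ∈ (ofColex x).support, Set.Iic (ofLex q).1).Countable :=
        (Finset.countable_toSet _).biUnion fun q _ => by
          haveI := countable_Iic (ofLex q).1
          exact Set.to_countable _
      exact Set.countable_univ_iff.1 (h2.mono h1)
    refine ⟨toLex (j, 0), lt_w.2 fun q hq => ?_⟩
    by_contra hne
    have h1 := hj q (Finsupp.mem_support_iff.2 hne)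
    have h2 : q < toLex (j, 0) := by
      rw [Prod.Lex.lt_iff]
      left
      exact h1
    exact absurd h2 (not_lt.2 hq)
  obtain ⟨D, hD⟩ : ∃ D : Set P, ∀ q, q ∈ D ↔ q < p := ⟨{q | q < p}, fun _ => Iff.rfl⟩
  have hDc : Countable D := by
    have h1 : Injective fun q : D => ((⟨(ofLex q.1).1, by
        have h3 : q.1 < p := (hD _).1 q.2
        rw [Prod.Lex.lt_iff] at h3
        rcases h3 with h3 | h3
        · exact h3.le
        · exact h3.1.le⟩ : Set.Iic (ofLex p).1), (ofLex q.1).2) := by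
      intro q q' h
      simp only [Prod.mk.injEq, Subtype.mk.injEq] at h
      apply Subtype.ext
      exact ofLex.injective (Prod.ext h.1 h.2)
    haveI := countable_Iic (ofLex p).1
    exact h1.countable
  have h2 : Injective fun y : {y : W // y < x} => ((ofColex y.1).comapDomain
      (Subtype.val : D → P) Subtype.val_injective.injOn : D →₀ ℕ) := by
    intro y z h
    apply Subtype.ext
    apply ofColex.injective
    ext q
    by_cases hq : q < p
    · have := DFunLike.congr_fun h (⟨q, (hD q).2 hq⟩ : D)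
      simpa [Finsupp.comapDomain_apply] using this
    · have h3 := lt_w.1 (y.2.trans hp) q (not_lt.1 hq)
      have h4 := lt_w.1 (z.2.trans hp) q (not_lt.1 hq)
      rw [h3, h4]
  exact h2.countable

theorem exists_embedding : ∃ e : W → Om, StrictMono e := by
  have hle : Ordinal.type ((· < ·) : W → W → Prop) ≤ Ordinal.type ((· < ·) : Om → Om → Prop) := by
    rw [type_toType]
    by_contra hcon
    push Not at hcon
    obtain ⟨x, hx⟩ := typein_surj ((· < ·) : W → W → Prop) hcon
    have h1 : #{y : W // y < x} = (typein ((· < ·) : W → W → Prop) x).card := rfl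
    rw [hx, card_ord] at h1
    haveI := countable_Iio_w x
    have h2 : #{y : W // y < x} ≤ ℵ₀ := Cardinal.mk_le_aleph0
    rw [h1] at h2
    exact absurd (aleph0_lt_aleph.2 zero_lt_one) (not_lt.2 h2)
  obtain ⟨e⟩ := type_le_iff'.1 hle
  exact ⟨e, fun x y h => e.map_rel_iff.2 h⟩


/-! ### The distance to the next marked number -/

theorem exists_dist (m n : ℕ) : ∃ t, (Nat.unpair (n + t)).1 = m :=
  ⟨Nat.pair m n - n, by
    rw [show n + (Nat.pair m n - n) = Nat.pair m n by
      have := Nat.right_le_pair m n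
      omega, Nat.unpair_pair]⟩

/-- The distance from `n` to the next number whose first component is `m`. -/
def dist (m n : ℕ) : ℕ := Nat.find (exists_dist m n)

theorem dist_lt {m n : ℕ} (h : (Nat.unpair n).1 ≠ m) : dist m (n + 1) < dist m n := by
  have h1 : (Nat.unpair (n + dist m n)).1 = m := Nat.find_spec (exists_dist m n)
  have h2 : dist m n ≠ 0 := by
    intro h3
    rw [h3] at h1
    exact h h1
  have h3 : dist m (n + 1) ≤ dist m n - 1 := by
    refine Nat.find_min' (exists_dist m (n + 1)) ?_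
    rw [show n + 1 + (dist m n - 1) = n + dist m n by omega]
    exact h1
  omega

theorem exists_colors : ∃ ι : Om → Om → ℕ, ∀ j β γ, β ≤ j → γ ≤ j → ι j β = ι j γ → β = γ := by
  classical
  have h : ∀ j : Om, ∃ g : Set.Iic j → ℕ, Injective g := fun j => by
    have := countable_Iic j
    exact Countable.exists_injective_nat _
  choose g hg using h
  refine ⟨fun j β => if h : β ≤ j then g j ⟨β, h⟩ else 0, fun j β γ h1 h2 h3 => ?_⟩
  simp only [dif_pos h1, dif_pos h2] at h3
  exact congrArg Subtype.val (hg j h3)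

theorem tt_R2 : TotallyTerminating R2 := by
  classical
  obtain ⟨e, he⟩ := exists_embedding
  obtain ⟨ι, hι⟩ := exists_colors
  have hbound : ∀ y : W, y < w (toLex (e y, 1)) := by
    intro y
    rw [lt_w]
    intro q hq
    by_contra hne
    have h1 : w q ≤ y := by
      by_contra hcon
      exact hne (lt_w.1 (not_le.1 hcon) q le_rfl)
    have h2 : (ofLex q).1 ≤ e (w (toLex ((ofLex q).1, 0))) :=
      StrictMono.le_apply (f := fun j : Om => e (w (toLex (j, 0)))) (fun j k hjk =>
        he (w_strictMono (Prod.Lex.lt_iff.2 (Or.inl hjk))))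
    rw [Prod.Lex.le_iff] at hq
    rcases hq with hq | ⟨hq1, hq2⟩
    · have h3 : w (toLex ((ofLex q).1, 0)) ≤ w q := by
        apply w_strictMono.monotone
        rw [Prod.Lex.le_iff]
        right
        exact ⟨rfl, Fin.zero_le _⟩
      have h4 := he.monotone (h3.trans h1)
      exact absurd (hq.trans_le h2) (not_lt.2 h4)
    · have h3 : w (toLex ((ofLex q).1, 0)) < w q := by
        apply w_strictMono
        rw [Prod.Lex.lt_iff]
        right
        refine ⟨rfl, ?_⟩
        have h5 : (1 : Fin 4) ≤ (ofLex q).2 := hq2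
        exact lt_of_lt_of_le (show (0 : Fin 4) < 1 by decide) h5
      have h4 := he (h3.trans_le h1)
      have h5 : e y = (ofLex q).1 := hq1
      rw [← h5] at h2 h4
      exact absurd h4 (not_lt.2 h2)
  have hnn : ∀ x : W, 0 ≤ x := by
    intro x
    by_contra h
    obtain ⟨i, _, hi⟩ := Finsupp.Colex.lt_iff.1 (not_le.1 h)
    exact Nat.not_lt_zero _ hi
  have hadd : ∀ x y : W, x ≤ x + y := fun x y => le_add_of_nonneg_right (hnn y)
  have hadd' : ∀ x y : W, y ≤ x + y := fun x y => le_add_of_nonneg_left (hnn x)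
  -- the interpretation of `L`
  obtain ⟨Lf, hLf⟩ : ∃ Lf : Om → ℕ → W → W, ∀ β n y, Lf β n y =
      w (toLex (e y, 1)) + toColex (Finsupp.single (toLex (e y, 0)) (dist (ι (e y) β) n)) :=
    ⟨_, fun _ _ _ => rfl⟩
  have hL1 : ∀ β n y, y < Lf β n y := by
    intro β n y
    rw [hLf]
    exact (hbound y).trans_le (hadd _ _)
  have hlev : ∀ (j : Om) (a b : Fin 4), a < b → (toLex (j, a) : P) < toLex (j, b) := by
    intro j a b hab
    rw [Prod.Lex.lt_iff]
    right
    exact ⟨rfl, hab⟩
  have hlev' : ∀ (j k : Om) (a b : Fin 4), j < k → (toLex (j, a) : P) < toLex (k, b) := by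
    intro j k a b hjk
    rw [Prod.Lex.lt_iff]
    left
    exact hjk
  have hL2 : ∀ β n y (p : P), toLex (e y, 1) < p → Lf β n y < w p := by
    intro β n y p hp
    rw [hLf]
    exact add_lt_w (w_strictMono hp) (single_lt_w ((hlev _ 0 1 (by decide)).trans hp) _)
  have hL3 : ∀ β n, StrictMono (Lf β n) := by
    intro β n y z hyz
    refine (hL2 β n y (toLex (e z, 1)) (hlev' _ _ _ _ (he hyz))).trans_le ?_
    rw [hLf]
    exact hadd _ _
  have hL4 : ∀ β n y, Lf β n y ≤ Lf β (n + 1) y → (Nat.unpair n).1 = ι (e y) β := by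
    intro β n y h
    by_contra hne
    have h1 := dist_lt (m := ι (e y) β) hne
    rw [hLf, hLf] at h
    have h2 := le_of_add_le_add_left h
    refine absurd h2 (not_le.2 ?_)
    refine Finsupp.Colex.lt_iff.2 ⟨toLex (e y, 0), fun q hq => ?_, ?_⟩
    · have h3 : ∀ k : ℕ, (Finsupp.single (toLex (e y, 0) : P) k) q = 0 := fun k =>
        Finsupp.single_eq_of_ne hq.ne'
      simp only [ofColex_toColex, h3]
    · simpa using h1
  -- the auxiliary function
  obtain ⟨Y, hY⟩ : ∃ Y : Om → Om → ℕ → W → W → W → Set W, ∀ β γ n a b c y,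
      y ∈ Y β γ n a b c ↔ (Lf β n y ≤ a ∧ Lf γ n y ≤ b ∧ w (toLex (γ, 0)) ≤ c) :=
    ⟨fun β γ n a b c => {y | Lf β n y ≤ a ∧ Lf γ n y ≤ b ∧ w (toLex (γ, 0)) ≤ c},
      fun _ _ _ _ _ _ _ => Iff.rfl⟩
  have hne : ∀ β γ n a b c, ((Y β γ n a b c)ᶜ).Nonempty := by
    intro β γ n a b c
    refine ⟨a, fun h => ?_⟩
    exact absurd (hL1 β n a) (not_lt.2 ((hY _ _ _ _ _ _ _).1 h).1)
  obtain ⟨sf, hsf⟩ : ∃ sf : Om → Om → ℕ → W → W → W → W, ∀ β γ n a b c,
      sf β γ n a b c ∉ Y β γ n a b c ∧ ∀ y, y ∉ Y β γ n a b c → sf β γ n a b c ≤ y := by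
    have h1 : ∀ β γ n a b c, ∃ s, s ∉ Y β γ n a b c ∧ ∀ y, y ∉ Y β γ n a b c → s ≤ y := by
      intro β γ n a b c
      obtain ⟨s, hs, hmin⟩ := WellFounded.has_min (r := ((· < ·) : W → W → Prop)) wellFounded_lt
        ((Y β γ n a b c)ᶜ) (hne β γ n a b c)
      exact ⟨s, hs, fun y hy => not_lt.1 (hmin y hy)⟩
    choose sf hsf using h1
    exact ⟨sf, hsf⟩
  have hsmono : ∀ β γ n a b c a' b' c', a ≤ a' → b ≤ b' → c ≤ c' →
      sf β γ n a b c ≤ sf β γ n a' b' c' := by
    intro β γ n a b c a' b' c' h1 h2 h3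
    refine (hsf β γ n a b c).2 _ fun h => (hsf β γ n a' b' c').1 ?_
    rw [hY] at h ⊢
    exact ⟨h.1.trans h1, h.2.1.trans h2, h.2.2.trans h3⟩
  obtain ⟨Uf, hUf⟩ : ∃ Uf : Om → Om → ℕ → W → W → W → W, ∀ β γ n a b c, Uf β γ n a b c =
      w (toLex (e (sf β γ n a b c), 2)) + (a + b + c) := ⟨_, fun _ _ _ _ _ _ => rfl⟩
  have hUmono : ∀ β γ n a b c a' b' c', a ≤ a' → b ≤ b' → c ≤ c' → a + b + c < a' + b' + c' →
      Uf β γ n a b c < Uf β γ n a' b' c' := by
    intro β γ n a b c a' b' c' h1 h2 h3 h4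
    rw [hUf, hUf]
    refine add_lt_add_of_le_of_lt ?_ h4
    apply w_strictMono.monotone
    have h5 := he.monotone (hsmono β γ n a b c a' b' c' h1 h2 h3)
    rcases h5.lt_or_eq with h6 | h6
    · exact (hlev' _ _ _ _ h6).le
    · rw [h6]
  obtain ⟨I, hId, hIT, hIL, hIU⟩ : ∃ I : Interp ar2 W, (∀ γ xs, I (.d γ) xs = w (toLex (γ, 0))) ∧
      (∀ β xs, I (.T β) xs = w (toLex (e (xs 0), 3))) ∧
      (∀ β n xs, I (.L β n) xs = Lf β n (xs 0)) ∧
      (∀ β γ n xs, I (.U β γ n) xs = Uf β γ n (xs 0) (xs 1) (xs 2)) :=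
    ⟨fun f => match f with
      | .d γ => fun _ => w (toLex (γ, 0))
      | .T _ => fun xs => w (toLex (e (xs 0), 3))
      | .L β n => fun xs => Lf β n (xs 0)
      | .U β γ n => fun xs => Uf β γ n (xs 0) (xs 1) (xs 2),
      fun _ _ => rfl, fun _ _ => rfl, fun _ _ _ => rfl, fun _ _ _ _ => rfl⟩
  refine totallyTerminating_of_model ((· < ·) : W → W → Prop) I R2 ⟨?_, ?_⟩
  · rintro (γ | β | ⟨β, n⟩ | ⟨β, γ, n⟩) xs i x hx
    · exact i.elim0
    · obtain rfl : i = 0 := Subsingleton.elim _ _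
      rw [hIT, hIT, update_self]
      exact w_strictMono (hlev' _ _ _ _ (he hx))
    · obtain rfl : i = 0 := Subsingleton.elim _ _
      rw [hIL, hIL, update_self]
      exact hL3 _ _ hx
    · rw [hIU, hIU]
      have h3 : ∀ i j : Fin 3, j ≠ i → update xs i x j = xs j := fun i j hij =>
        update_of_ne hij _ _
      have h4 : ∀ i : Fin 3, update xs i x i = x := fun i => update_self _ _ _
      have hi : i = (0 : Fin 3) ∨ i = (1 : Fin 3) ∨ i = (2 : Fin 3) := by
        have : ∀ i : Fin 3, i = 0 ∨ i = 1 ∨ i = 2 := by decide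
        exact this i
      rcases hi with rfl | rfl | rfl
      · rw [h4, h3 0 1 (by decide), h3 0 2 (by decide)]
        refine hUmono _ _ _ _ _ _ _ _ _ hx.le le_rfl le_rfl ?_
        exact add_lt_add_left (add_lt_add_left hx _) _
      · rw [h4, h3 1 0 (by decide), h3 1 2 (by decide)]
        refine hUmono _ _ _ _ _ _ _ _ _ le_rfl hx.le le_rfl ?_
        exact add_lt_add_left (add_lt_add_right hx _) _
      · rw [h4, h3 2 0 (by decide), h3 2 1 (by decide)]
        refine hUmono _ _ _ _ _ _ _ _ _ le_rfl le_rfl hx.le ?_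
        exact add_lt_add_right hx _
  · rintro p ⟨β, γ, n, hβγ, rfl | rfl⟩ v
    · -- the first kind of rules
      have e1 : (Term.app (S2.U β γ n) ![.app (S2.L β (n + 1)) ![.var 0],
          .app (S2.L γ (n + 1)) ![.var 0], .var 0] : Term ar2 ℕ).eval I v =
          Uf β γ n (Lf β (n + 1) (v 0)) (Lf γ (n + 1) (v 0)) (v 0) := by
        simp only [Term.eval, hIU]
        simp [Term.eval, hIL]
      have e2 : (Term.app (S2.T β) ![.var 0] : Term ar2 ℕ).eval I v =
          w (toLex (e (v 0), 3)) := by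
        simp only [Term.eval, hIT]
        simp [Term.eval]
      simp only
      rw [e1, e2, hUf]
      obtain ⟨y, hy⟩ : ∃ y, y = v 0 := ⟨_, rfl⟩
      rw [← hy]
      have hout : y ∉ Y β γ n (Lf β (n + 1) y) (Lf γ (n + 1) y) y := by
        rw [hY]
        rintro ⟨h1, h2, h3⟩
        have h4 := hL4 _ _ _ h1
        have h5 := hL4 _ _ _ h2
        have h6 : γ ≤ e y := by
          have h7 : γ ≤ e (w (toLex (γ, 0))) :=
            StrictMono.le_apply (f := fun j : Om => e (w (toLex (j, 0)))) (fun j k hjk =>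
              he (w_strictMono (hlev' _ _ _ _ hjk)))
          exact h7.trans (he.monotone h3)
        exact hβγ.ne (hι (e y) β γ (hβγ.le.trans h6) h6 (h4.symm.trans h5))
      have hs := (hsf β γ n (Lf β (n + 1) y) (Lf γ (n + 1) y) y).2 y hout
      have hp : ∀ a : Fin 4, a < 3 → (toLex (e y, a) : P) < toLex (e y, 3) := fun a ha =>
        hlev _ _ _ ha
      refine add_lt_w ?_ (add_lt_w (add_lt_w ?_ ?_) ?_)
      · apply w_strictMono
        rcases (he.monotone hs).lt_or_eq with h6 | h6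
        · exact hlev' _ _ _ _ h6
        · rw [h6]
          exact hp 2 (by decide)
      · exact hL2 _ _ _ _ (hp 1 (by decide))
      · exact hL2 _ _ _ _ (hp 1 (by decide))
      · exact (hbound y).trans (w_strictMono (hp 1 (by decide)))
    · -- the second kind of rules
      have e1 : (Term.app (S2.U β γ n) ![.app (S2.L β n) ![.var 0],
          .app (S2.L γ n) ![.var 0], .app (S2.d γ) ![]] : Term ar2 ℕ).eval I v =
          Uf β γ n (Lf β n (v 0)) (Lf γ n (v 0)) (w (toLex (γ, 0))) := by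
        simp only [Term.eval, hIU]
        simp [Term.eval, hIL, hId]
      have e2 : (Term.app (S2.T γ) ![.var 0] : Term ar2 ℕ).eval I v =
          w (toLex (e (v 0), 3)) := by
        simp only [Term.eval, hIT]
        simp [Term.eval]
      simp only
      rw [e1, e2, hUf]
      obtain ⟨y, hy⟩ : ∃ y, y = v 0 := ⟨_, rfl⟩
      rw [← hy]
      have hs : y < sf β γ n (Lf β n y) (Lf γ n y) (w (toLex (γ, 0))) := by
        by_contra hcon
        push Not at hcon
        refine (hsf β γ n (Lf β n y) (Lf γ n y) (w (toLex (γ, 0)))).1 ?_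
        rw [hY]
        exact ⟨(hL3 β n).monotone hcon, (hL3 γ n).monotone hcon, le_rfl⟩
      exact (w_strictMono (hlev' _ _ _ _ (he hs))).trans_le (hadd _ _)


/-! ## The union -/

theorem not_tt_union : ¬ TotallyTerminating (union R1 R2) := by
  classical
  rintro ⟨gt, hWO, hmono, hcompat⟩
  letI : LinearOrder (Ground (Sum.elim ar1 ar2)) := linearOrderOfSTO fun s t => gt t s
  have hlt : ∀ s t : Ground (Sum.elim ar1 ar2), s < t ↔ gt t s := fun _ _ => Iff.rfl
  haveI : WellFoundedLT (Ground (Sum.elim ar1 ar2)) := ⟨hWO.wf⟩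
  have hm : ∀ (f : S1 ⊕ S2) (xs ys : Fin (Sum.elim ar1 ar2 f) → Ground (Sum.elim ar1 ar2)),
      (∀ i, xs i ≤ ys i) → (Term.app f xs : Ground (Sum.elim ar1 ar2)) ≤ Term.app f ys :=
    fun f xs ys h => interp_mono (I := fun f ts => Term.app f ts)
      (fun f xs i x hx => hmono f xs i x hx) f xs ys h
  -- the symbols
  obtain ⟨K, hK⟩ : ∃ K : ℕ → Ground (Sum.elim ar1 ar2) → Ground (Sum.elim ar1 ar2) →
      Ground (Sum.elim ar1 ar2), ∀ n a b, K n a b = .app (Sum.inl (S1.k n)) ![a, b] :=
    ⟨_, fun _ _ _ => rfl⟩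
  obtain ⟨Tt, hT⟩ : ∃ Tt : Om → Ground (Sum.elim ar1 ar2) → Ground (Sum.elim ar1 ar2),
      ∀ β a, Tt β a = .app (Sum.inr (S2.T β)) ![a] := ⟨_, fun _ _ => rfl⟩
  obtain ⟨Lt, hL⟩ : ∃ Lt : Om → ℕ → Ground (Sum.elim ar1 ar2) → Ground (Sum.elim ar1 ar2),
      ∀ β n a, Lt β n a = .app (Sum.inr (S2.L β n)) ![a] := ⟨_, fun _ _ _ => rfl⟩
  obtain ⟨Dt, hD⟩ : ∃ Dt : Om → Ground (Sum.elim ar1 ar2),
      ∀ γ, Dt γ = .app (Sum.inr (S2.d γ)) ![] := ⟨_, fun _ => rfl⟩
  obtain ⟨Ut, hU⟩ : ∃ Ut : Om → Om → ℕ → Ground (Sum.elim ar1 ar2) →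
      Ground (Sum.elim ar1 ar2) → Ground (Sum.elim ar1 ar2) → Ground (Sum.elim ar1 ar2),
      ∀ β γ n a b c, Ut β γ n a b c = .app (Sum.inr (S2.U β γ n)) ![a, b, c] :=
    ⟨_, fun _ _ _ _ _ _ => rfl⟩
  obtain ⟨nm, hnm⟩ : ∃ nm : ℕ → Ground (Sum.elim ar1 ar2), ∀ (n : ℕ)
      (σ : ℕ → Ground (Sum.elim ar1 ar2)), (num n : Term ar1 ℕ).inl.subst σ = nm n := by
    refine ⟨fun n => (num n : Term ar1 ℕ).inl.subst fun _ => (.app (Sum.inl S1.zero) ![]), ?_⟩
    intro n σ
    induction n with
    | zero =>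
      simp only [num, Term.inl, Term.subst]
      congr 1
      funext i
      exact i.elim0
    | succ n ih =>
      simp only [num, Term.inl, Term.subst]
      congr 1
      funext i
      obtain rfl : i = (0 : Fin 1) := Subsingleton.elim (α := Fin 1) i 0
      exact ih
  have hKmono : ∀ n a b b', b ≤ b' → K n a b ≤ K n a b' := by
    intro n a b b' h
    rw [hK, hK]
    refine hm _ _ _ fun i => ?_
    refine Fin.cases ?_ (fun j => ?_) i
    · exact le_rfl
    · obtain rfl : j = 0 := Subsingleton.elim _ _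
      exact h
  have hUmono : ∀ β γ n a b c a' b' c', a ≤ a' → b ≤ b' → c ≤ c' →
      Ut β γ n a b c ≤ Ut β γ n a' b' c' := by
    intro β γ n a b c a' b' c' h1 h2 h3
    rw [hU, hU]
    refine hm _ _ _ fun i => ?_
    have hi : i = (0 : Fin 3) ∨ i = (1 : Fin 3) ∨ i = (2 : Fin 3) := by
      have : ∀ i : Fin 3, i = 0 ∨ i = 1 ∨ i = 2 := by decide
      exact this i
    rcases hi with rfl | rfl | rfl
    · exact h1
    · exact h2
    · exact h3
  -- the rules
  have hr1 : ∀ n b, K (n + 1) b b < K n b (nm n) := by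
    intro n b
    have h1 := hcompat _ (Or.inl ⟨_, ⟨n, rfl⟩, rfl⟩) fun _ => b
    rw [hlt]
    convert h1 using 1
    · rw [hK]
      simp only [Term.inl, Term.subst]
      congr 1
      funext i
      refine Fin.cases ?_ (fun j => ?_) i
      · rfl
      · obtain rfl : j = 0 := Subsingleton.elim _ _
        exact (hnm n _).symm
    · rw [hK]
      simp only [Term.inl, Term.subst]
      congr 1
      funext i
      refine Fin.cases ?_ (fun j => ?_) i
      · rfl
      · obtain rfl : j = 0 := Subsingleton.elim _ _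
        rfl
  have hr2 : ∀ β γ n b, β < γ → Ut β γ n (Lt β (n + 1) b) (Lt γ (n + 1) b) b < Tt β b := by
    intro β γ n b hβγ
    have h1 := hcompat _ (Or.inr ⟨_, ⟨β, γ, n, hβγ, Or.inl rfl⟩, rfl⟩) fun _ => b
    rw [hlt]
    convert h1 using 1
    · rw [hT]
      simp only [Term.inr, Term.subst]
      congr 1
      funext i
      obtain rfl : i = 0 := Subsingleton.elim _ _
      rfl
    · rw [hU, hL, hL]
      simp only [Term.inr, Term.subst]
      congr 1
      funext i
      have hi : i = (0 : Fin 3) ∨ i = (1 : Fin 3) ∨ i = (2 : Fin 3) := by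
        have : ∀ i : Fin 3, i = 0 ∨ i = 1 ∨ i = 2 := by decide
        exact this i
      rcases hi with rfl | rfl | rfl
      · show Term.app _ _ = Term.app _ _
        congr 1
        funext i
        obtain rfl : i = 0 := Subsingleton.elim _ _
        rfl
      · show Term.app _ _ = Term.app _ _
        congr 1
        funext i
        obtain rfl : i = 0 := Subsingleton.elim _ _
        rfl
      · rfl
  have hr3 : ∀ β γ n b, β < γ → Tt γ b < Ut β γ n (Lt β n b) (Lt γ n b) (Dt γ) := by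
    intro β γ n b hβγ
    have h1 := hcompat _ (Or.inr ⟨_, ⟨β, γ, n, hβγ, Or.inr rfl⟩, rfl⟩) fun _ => b
    rw [hlt]
    convert h1 using 1
    · rw [hU, hL, hL, hD]
      simp only [Term.inr, Term.subst]
      congr 1
      funext i
      have hi : i = (0 : Fin 3) ∨ i = (1 : Fin 3) ∨ i = (2 : Fin 3) := by
        have : ∀ i : Fin 3, i = 0 ∨ i = 1 ∨ i = 2 := by decide
        exact this i
      rcases hi with rfl | rfl | rfl
      · show Term.app _ _ = Term.app _ _
        congr 1
        funext i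
        obtain rfl : i = 0 := Subsingleton.elim _ _
        rfl
      · show Term.app _ _ = Term.app _ _
        congr 1
        funext i
        obtain rfl : i = 0 := Subsingleton.elim _ _
        rfl
      · show Term.app _ _ = Term.app _ _
        congr 1
        funext i
        exact i.elim0
    · rw [hT]
      simp only [Term.inr, Term.subst]
      congr 1
      funext i
      obtain rfl : i = 0 := Subsingleton.elim _ _
      rfl
  -- the numerals are cofinal
  have hcof : ∀ b : Ground (Sum.elim ar1 ar2), ∃ n, b < nm n := by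
    intro b
    by_contra hcon
    push Not at hcon
    obtain ⟨m, ⟨n, hn⟩, hmin⟩ := WellFounded.has_min
      (r := ((· < ·) : Ground (Sum.elim ar1 ar2) → Ground (Sum.elim ar1 ar2) → Prop))
      wellFounded_lt (Set.range fun n => K n b b) ⟨_, 0, rfl⟩
    refine hmin (K (n + 1) b b) ⟨n + 1, rfl⟩ ?_
    rw [← hn]
    exact (hr1 n b).trans_le (hKmono n b _ _ (hcon n))
  choose N hN using fun γ => hcof (Dt γ)
  have hcol : ∀ γ, ∃ n, Lt γ n (nm (N γ)) ≤ Lt γ (n + 1) (nm (N γ)) := by
    intro γ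
    by_contra hcon
    push Not at hcon
    obtain ⟨m, ⟨n, hn⟩, hmin⟩ := WellFounded.has_min
      (r := ((· < ·) : Ground (Sum.elim ar1 ar2) → Ground (Sum.elim ar1 ar2) → Prop))
      wellFounded_lt (Set.range fun n => Lt γ n (nm (N γ))) ⟨_, 0, rfl⟩
    refine hmin (Lt γ (n + 1) (nm (N γ))) ⟨n + 1, rfl⟩ ?_
    rw [← hn]
    exact hcon n
  choose c hc using hcol
  -- a large fibre
  obtain ⟨q, hq⟩ : ∃ q : ℕ × ℕ, ¬ ({γ | (N γ, c γ) = q} : Set Om).Finite := by
    by_contra hcon
    push Not at hcon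
    apply uncountable_Om
    have h1 : (Set.univ : Set Om) = ⋃ q : ℕ × ℕ, {γ | (N γ, c γ) = q} := by
      ext γ
      simp
    have h2 : (Set.univ : Set Om).Countable := by
      rw [h1]
      exact Set.countable_iUnion fun q => (hcon q).countable
    exact Set.countable_univ_iff.1 h2
  apply hq
  obtain ⟨b, hb⟩ : ∃ b, b = nm q.1 := ⟨_, rfl⟩
  have hanti : ∀ β γ : ({γ | (N γ, c γ) = q} : Set Om), β < γ → Tt γ.1 b < Tt β.1 b := by
    rintro ⟨β, hβ⟩ ⟨γ, hγ⟩ hβγ
    have hβ1 : N β = q.1 := congrArg Prod.fst hβ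
    have hβ2 : c β = q.2 := congrArg Prod.snd hβ
    have hγ1 : N γ = q.1 := congrArg Prod.fst hγ
    have hγ2 : c γ = q.2 := congrArg Prod.snd hγ
    have h1 := hc β
    have h2 := hc γ
    have h3 := hN γ
    rw [hβ1, hβ2, ← hb] at h1
    rw [hγ1, hγ2, ← hb] at h2
    rw [hγ1, ← hb] at h3
    have h4 : β < γ := hβγ
    exact (hr3 β γ q.2 b h4).trans_le
      ((hUmono β γ q.2 _ _ _ _ _ _ h1 h2 h3.le).trans (hr2 β γ q.2 b h4).le)
  haveI : WellFoundedGT ({γ | (N γ, c γ) = q} : Set Om) := ⟨by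
    refine Subrelation.wf (r := fun β γ : ({γ | (N γ, c γ) = q} : Set Om) => Tt β.1 b < Tt γ.1 b)
      ?_ (InvImage.wf (fun γ : ({γ | (N γ, c γ) = q} : Set Om) => Tt γ.1 b) wellFounded_lt)
    intro β γ h
    exact hanti γ β h⟩
  haveI := Finite.of_wellFoundedLT_wellFoundedGT ({γ | (N γ, c γ) = q} : Set Om)
  exact Set.toFinite _

end Pool.Agent.V11233.TT
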