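import Mathlib

/-!
# Total termination: definitions, and total termination by interpretations
-/

set_option autoImplicit false

namespace Pool.Agent.V11233.TT

open Function

/-- Terms over a signature (a type `F` of symbols with the arities `ar`) and variables in `V`. -/
inductive Term {F : Type} (ar : F → ℕ) (V : Type) : Type
  | var (x : V) : Term ar V
  | app (f : F) (ts : Fin (ar f) → Term ar V) : Term ar V

variable {F : Type} {ar : F → ℕ} {V W : Type}

/-- Application of a substitution. -/
def Term.subst (σ : V → Term ar W) : Term ar V → Term ar W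
  | .var x => σ x
  | .app f ts => .app f fun i => (ts i).subst σ

/-- The variable `x` occurs in the term. -/
def Term.Occurs (x : V) : Term ar V → Prop
  | .var y => x = y
  | .app _ ts => ∃ i, (ts i).Occurs x

/-- The constants that are added to the signature: none if it has a constant, otherwise one. -/
def Extra {F : Type} (ar : F → ℕ) : Type := {_u : Unit // ∀ f, ar f ≠ 0}

/-- The ground terms over the signature; if the signature has no constant, then one fresh constant
is added. -/
abbrev Ground {F : Type} (ar : F → ℕ) : Type := Term ar (Extra ar)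

/-- A term rewrite system: a set of rules `l → r`, given as pairs `(l, r)` of terms with variables
`x₀, x₁, …`, such that `l` is not a variable and every variable of `r` occurs in `l`. -/
structure IsTRS (R : Set (Term ar ℕ × Term ar ℕ)) : Prop where
  left : ∀ p ∈ R, ∀ x, p.1 ≠ .var x
  vars : ∀ p ∈ R, ∀ x, p.2.Occurs x → p.1.Occurs x

/-- Total termination: there is a monotonic well-ordering `gt` of the ground terms for which
`lσ` is greater than `rσ` for every rule `l → r` and every ground substitution `σ`. -/
def TotallyTerminating (R : Set (Term ar ℕ × Term ar ℕ)) : Prop :=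
  ∃ gt : Ground ar → Ground ar → Prop,
    IsWellOrder (Ground ar) (fun s t => gt t s) ∧
    (∀ (f : F) (ts : Fin (ar f) → Ground ar) (i : Fin (ar f)) (s : Ground ar),
      gt s (ts i) → gt (.app f (update ts i s)) (.app f ts)) ∧
    ∀ p ∈ R, ∀ σ : ℕ → Ground ar, gt (p.1.subst σ) (p.2.subst σ)

variable {F₁ F₂ : Type} {ar₁ : F₁ → ℕ} {ar₂ : F₂ → ℕ}

/-- Terms over the first signature as terms over the disjoint union of two signatures. -/
def Term.inl : Term ar₁ V → Term (Sum.elim ar₁ ar₂) V
  | .var x => .var x
  | .app f ts => .app (Sum.inl f) fun i => (ts i).inl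

/-- Terms over the second signature as terms over the disjoint union of two signatures. -/
def Term.inr : Term ar₂ V → Term (Sum.elim ar₁ ar₂) V
  | .var x => .var x
  | .app f ts => .app (Sum.inr f) fun i => (ts i).inr

/-- The union of two rewrite systems over disjoint signatures. -/
def union (R₁ : Set (Term ar₁ ℕ × Term ar₁ ℕ)) (R₂ : Set (Term ar₂ ℕ × Term ar₂ ℕ)) :
    Set (Term (Sum.elim ar₁ ar₂) ℕ × Term (Sum.elim ar₁ ar₂) ℕ) :=
  (fun p => (p.1.inl, p.2.inl)) '' R₁ ∪ (fun p => (p.1.inr, p.2.inr)) '' R₂

/-! ## Interpretations -/

/-- Interpretations of the symbols in the set `A`. -/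
abbrev Interp {F : Type} (ar : F → ℕ) (A : Type) : Type := ∀ f : F, (Fin (ar f) → A) → A

/-- The value of a term. -/
def Term.eval {A : Type} (I : Interp ar A) (v : V → A) : Term ar V → A
  | .var x => v x
  | .app f ts => I f fun i => (ts i).eval I v

/-- Strictly monotone interpretations that are compatible with `R`. -/
structure Model {A : Type} (r : A → A → Prop) (I : Interp ar A)
    (R : Set (Term ar ℕ × Term ar ℕ)) : Prop where
  mono : ∀ (f : F) (xs : Fin (ar f) → A) (i : Fin (ar f)) (x : A), r (xs i) x →
    r (I f xs) (I f (update xs i x))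
  compat : ∀ p ∈ R, ∀ v : ℕ → A, r (p.2.eval I v) (p.1.eval I v)

/-! ## The traversal of a term -/

/-- The symbols of a term in prefix order. -/
def Term.trav : Term ar V → List (F ⊕ V)
  | .var x => [Sum.inr x]
  | .app f ts => Sum.inl f :: (List.ofFn fun i => (ts i).trav).flatten

theorem flatten_inj {α T : Type} (g : T → List α) : ∀ (k : ℕ) (a b : Fin k → T)
    (_ : ∀ i t u w, g (a i) ++ u = g t ++ w → a i = t ∧ u = w) (u w : List α),
    (List.ofFn fun i => g (a i)).flatten ++ u = (List.ofFn fun i => g (b i)).flatten ++ w →
    a = b ∧ u = w := by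
  intro k
  induction k with
  | zero =>
    intro a b _ u w h
    exact ⟨funext fun i => i.elim0, by simpa using h⟩
  | succ k ih =>
    intro a b hg u w h
    rw [List.ofFn_succ, List.ofFn_succ, List.flatten_cons, List.flatten_cons, List.append_assoc,
      List.append_assoc] at h
    obtain ⟨h1, h2⟩ := hg 0 _ _ _ h
    obtain ⟨h3, h4⟩ := ih (fun i => a i.succ) (fun i => b i.succ) (fun i => hg i.succ) u w h2
    refine ⟨funext fun i => ?_, h4⟩
    induction i using Fin.cases with
    | zero => exact h1
    | succ i => exact congrFun h3 i

theorem trav_prefix (s : Term ar V) : ∀ (t : Term ar V) (u w : List (F ⊕ V)),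
    s.trav ++ u = t.trav ++ w → s = t ∧ u = w := by
  induction s with
  | var x =>
    intro t u w h
    cases t with
    | var y =>
      simp only [Term.trav, List.cons_append, List.nil_append, List.cons.injEq,
        Sum.inr.injEq] at h
      exact ⟨by rw [h.1], h.2⟩
    | app g ts =>
      simp [Term.trav] at h
  | app f ts ih =>
    intro t u w h
    cases t with
    | var y =>
      simp [Term.trav] at h
    | app g ts' =>
      simp only [Term.trav, List.cons_append, List.cons.injEq, Sum.inl.injEq] at h
      obtain ⟨rfl, h⟩ := h
      obtain ⟨h1, h2⟩ := flatten_inj Term.trav _ ts ts' (fun i t u w h => ih i t u w h) u w h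
      exact ⟨by rw [h1], h2⟩

theorem trav_injective : Injective (Term.trav : Term ar V → List (F ⊕ V)) := by
  intro s t h
  exact (trav_prefix s t [] [] (by rw [h])).1

theorem shortlex_append {α : Type} {r : α → α → Prop} {a b : List α} (h : List.Shortlex r a b)
    (q : List α) : List.Shortlex r (a ++ q) (b ++ q) := by
  rw [List.shortlex_def] at h ⊢
  rw [List.length_append, List.length_append]
  rcases h with h | ⟨h1, h2⟩
  · left
    omega
  · right
    refine ⟨by omega, ?_⟩
    induction h2 with
    | nil => simp at h1
    | rel h => exact List.Lex.rel h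
    | cons h ih => exact List.Lex.cons (ih (by simpa using h1))

theorem flatten_lex {α : Type} {r : α → α → Prop} : ∀ (k : ℕ) (a b : Fin k → List α) (i : Fin k)
    (_ : ∀ j, j ≠ i → a j = b j) (_ : List.Shortlex r (a i) (b i)),
    List.Shortlex r (List.ofFn a).flatten (List.ofFn b).flatten := by
  intro k
  induction k with
  | zero => intro a b i; exact i.elim0
  | succ k ih =>
    intro a b i h1 h2
    rw [List.ofFn_succ, List.ofFn_succ, List.flatten_cons, List.flatten_cons]
    induction i using Fin.cases with
    | zero =>
      have h3 : (fun i : Fin k => a i.succ) = fun i => b i.succ :=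
        funext fun i => h1 _ (Fin.succ_ne_zero i)
      rw [h3]
      exact shortlex_append h2 _
    | succ i =>
      rw [h1 0 (Fin.succ_ne_zero i).symm]
      refine List.Shortlex.append_left (ih _ _ i (fun j hj => h1 _ ?_) h2) _
      intro h
      exact hj (Fin.succ_injective _ h)

theorem trav_mono {r : F ⊕ V → F ⊕ V → Prop} (f : F) (ts : Fin (ar f) → Term ar V)
    (i : Fin (ar f)) (s : Term ar V) (h : List.Shortlex r (ts i).trav s.trav) :
    List.Shortlex r (Term.app f ts).trav (Term.app f (update ts i s)).trav := by
  unfold Term.trav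
  refine List.Shortlex.append_left (s := [Sum.inl f]) (flatten_lex _ _ _ i ?_ ?_) 
  · intro j hj
    simp only [update_of_ne hj]
  · simp only [update_self]
    exact h

/-! ## Total termination by interpretations -/

theorem eval_subst {A : Type} (I : Interp ar A) (v : W → A) (σ : V → Term ar W) (t : Term ar V) :
    (t.subst σ).eval I v = t.eval I fun x => (σ x).eval I v := by
  induction t with
  | var x => rfl
  | app f ts ih =>
    simp only [Term.subst, Term.eval]
    congr 1
    funext i
    exact ih i

theorem totallyTerminating_of_model {A : Type} [Nonempty A] (r : A → A → Prop) [IsWellOrder A r]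
    (I : Interp ar A) (R : Set (Term ar ℕ × Term ar ℕ)) (h : Model r I R) :
    TotallyTerminating R := by
  classical
  obtain ⟨a⟩ := ‹Nonempty A›
  obtain ⟨v, hv⟩ : ∃ v : Extra ar → A, v = fun _ => a := ⟨_, rfl⟩
  obtain ⟨q, hq⟩ : ∃ q : F ⊕ Extra ar → F ⊕ Extra ar → Prop, IsWellOrder _ q :=
    ⟨WellOrderingRel, inferInstance⟩
  haveI : IsWellOrder (List (F ⊕ Extra ar)) (List.Shortlex q) := {
    trichotomous := (inferInstance : Std.Trichotomous (List.Shortlex q)).trichotomous
    wf := List.Shortlex.wf hq.wf }
  obtain ⟨e, he⟩ : ∃ e : Ground ar ↪ A × List (F ⊕ Extra ar),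
      ∀ t, e t = (t.eval I v, t.trav) :=
    ⟨⟨fun t => (t.eval I v, t.trav), fun s t hst => trav_injective (Prod.ext_iff.1 hst).2⟩,
      fun _ => rfl⟩
  refine ⟨fun s t => Prod.Lex r (List.Shortlex q) (e t) (e s), ?_, ?_, ?_⟩
  · exact (RelEmbedding.preimage e (Prod.Lex r (List.Shortlex q))).isWellOrder
  · intro f ts i s hs
    simp only [he, Prod.lex_def] at hs ⊢
    have e1 : ∀ s' : Ground ar, (Term.app f (update ts i s')).eval I v =
        I f (update (fun j => (ts j).eval I v) i (s'.eval I v)) := by
      intro s'
      simp only [Term.eval]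
      congr 1
      funext j
      by_cases hj : j = i
      · subst hj
        simp
      · simp [update_of_ne hj]
    have e2 : (Term.app f ts).eval I v = I f fun j => (ts j).eval I v := rfl
    rcases hs with hs | ⟨hs1, hs2⟩
    · left
      rw [e1, e2]
      exact h.mono f _ i _ hs
    · right
      refine ⟨?_, trav_mono f ts i s hs2⟩
      rw [e1, e2, ← hs1, update_eq_self]
  · intro p hp σ
    simp only [he, Prod.lex_def]
    left
    rw [eval_subst, eval_subst]
    exact h.compat p hp _

end Pool.Agent.V11233.TT
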