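import Pool.Agent.V11233.TT.Defs

/-!
# Total termination is modular for countable signatures

Every countable well-ordered algebra is embedded into a well-ordered algebra whose order type is the
cardinal `ℵ_ω`, which does not depend on the given algebra.
-/

set_option autoImplicit false

namespace Pool.Agent.V11233.TT

open Function Cardinal Ordinal

/-! ## Antitone functions -/

section Lex

variable {A B : Type} [LinearOrder A] [LinearOrder B]

/-- Lexicographic comparison; the large arguments are the most significant. -/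
def lexTop (x y : B → A) : Prop := ∃ b, x b < y b ∧ ∀ c, b ≤ c → x c ≤ y c

theorem lexTop_asymm {x y : B → A} (h1 : lexTop x y) (h2 : lexTop y x) : False := by
  obtain ⟨b, h3, h4⟩ := h1
  obtain ⟨c, h5, h6⟩ := h2
  rcases le_total b c with h | h
  · exact absurd h5 (not_lt.2 (h4 c h))
  · exact absurd h3 (not_lt.2 (h6 b h))

theorem lexTop_top [OrderTop B] {x y : B → A} (h : lexTop x y) : x ⊤ ≤ y ⊤ := by
  obtain ⟨b, _, h2⟩ := h
  exact h2 ⊤ le_top

variable [WellFoundedLT A]

theorem lexTop_trichotomous {x y : B → A} (hx : Antitone x) (hy : Antitone y) :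
    lexTop x y ∨ x = y ∨ lexTop y x := by
  by_cases hI : ∃ b, x b ≠ y b
  · obtain ⟨b, hb⟩ := hI
    obtain ⟨I, hIdef⟩ : ∃ I : Set B, I = {b | ∃ c, b ≤ c ∧ x c ≠ y c} := ⟨_, rfl⟩
    have hbI : b ∈ I := by rw [hIdef]; exact ⟨b, le_rfl, hb⟩
    obtain ⟨b₁, hb₁, hmin₁⟩ := WellFounded.has_min (r := fun b c : B => x b < x c)
      (InvImage.wf x wellFounded_lt) I ⟨b, hbI⟩
    obtain ⟨b₂, hb₂, hmin₂⟩ := WellFounded.has_min (r := fun b c : B => y b < y c)
      (InvImage.wf y wellFounded_lt) I ⟨b, hbI⟩
    obtain ⟨b₀, hb₀, hle₁, hle₂⟩ : ∃ b₀ ∈ I, b₁ ≤ b₀ ∧ b₂ ≤ b₀ := by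
      rcases le_total b₁ b₂ with h | h
      · exact ⟨b₂, hb₂, h, le_rfl⟩
      · exact ⟨b₁, hb₁, le_rfl, h⟩
    have hcx : ∀ c ∈ I, b₀ ≤ c → x c = x b₀ := fun c hc hbc =>
      le_antisymm (hx hbc) ((hx hle₁).trans (not_lt.1 (hmin₁ c hc)))
    have hcy : ∀ c ∈ I, b₀ ≤ c → y c = y b₀ := fun c hc hbc =>
      le_antisymm (hy hbc) ((hy hle₂).trans (not_lt.1 (hmin₂ c hc)))
    have hout : ∀ c, c ∉ I → x c = y c := by
      intro c hc
      by_contra h
      exact hc (by rw [hIdef]; exact ⟨c, le_rfl, h⟩)
    have hne : x b₀ ≠ y b₀ := by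
      rw [hIdef] at hb₀
      obtain ⟨c, hc1, hc2⟩ := hb₀
      have hcI : c ∈ I := by rw [hIdef]; exact ⟨c, le_rfl, hc2⟩
      rw [← hcx c hcI hc1, ← hcy c hcI hc1]
      exact hc2
    rcases lt_or_gt_of_ne hne with h | h
    · left
      refine ⟨b₀, h, fun c hc => ?_⟩
      by_cases hcI : c ∈ I
      · rw [hcx c hcI hc, hcy c hcI hc]
        exact h.le
      · exact (hout c hcI).le
    · right
      right
      refine ⟨b₀, h, fun c hc => ?_⟩
      by_cases hcI : c ∈ I
      · rw [hcx c hcI hc, hcy c hcI hc]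
        exact h.le
      · exact (hout c hcI).ge
  · push Not at hI
    exact Or.inr (Or.inl (funext hI))

variable [WellFoundedLT B]

theorem lexTop_min_aux (β : B) : ∀ S : Set (B → A), S.Nonempty → (∀ x ∈ S, Antitone x) →
    (∀ x ∈ S, ∀ y ∈ S, ∀ c, β ≤ c → x c = y c) → ∃ m ∈ S, ∀ y ∈ S, ¬ lexTop y m := by
  induction β using WellFoundedLT.induction with
  | ind β ih =>
    intro S hS hanti hagree
    obtain ⟨x₀, hx₀⟩ := hS
    by_cases hβ : ∃ c, c < β
    · obtain ⟨c₀, hc₀⟩ := hβ
      -- the least value below `β`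
      obtain ⟨⟨x₁, c₁⟩, ⟨hx₁, hc₁⟩, hmin⟩ := WellFounded.has_min
        (r := fun p q : (B → A) × B => p.1 p.2 < q.1 q.2)
        (InvImage.wf (fun p : (B → A) × B => p.1 p.2) wellFounded_lt)
        {p | p.1 ∈ S ∧ p.2 < β} ⟨(x₀, c₀), hx₀, hc₀⟩
      simp only at hx₁ hc₁ hmin
      obtain ⟨a, ha⟩ : ∃ a, a = x₁ c₁ := ⟨_, rfl⟩
      have hmin' : ∀ x ∈ S, ∀ c, c < β → a ≤ x c := fun x hx c hc => by
        rw [ha]
        exact not_lt.1 (hmin (x, c) ⟨hx, hc⟩)
      -- the least place where it occurs
      obtain ⟨γ, ⟨hγβ, x₂, hx₂, hx₂a⟩, hγmin⟩ := WellFounded.has_min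
        (r := ((· < ·) : B → B → Prop)) wellFounded_lt {γ | γ < β ∧ ∃ x ∈ S, x γ = a}
        ⟨c₁, hc₁, x₁, hx₁, ha.symm⟩
      have hconst : ∀ x ∈ S, x γ = a → ∀ c, γ ≤ c → c < β → x c = a := fun x hx hxa c h1 h2 =>
        le_antisymm (hxa ▸ hanti x hx h1) (hmin' x hx c h2)
      obtain ⟨m, ⟨hmS, hma⟩, hm⟩ := ih γ hγβ {x | x ∈ S ∧ x γ = a} ⟨x₂, hx₂, hx₂a⟩
        (fun x hx => hanti x hx.1) (fun x hx y hy c hc => by
          rcases lt_or_ge c β with h | h
          · rw [hconst x hx.1 hx.2 c hc h, hconst y hy.1 hy.2 c hc h]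
          · exact hagree x hx.1 y hy.1 c h)
      refine ⟨m, hmS, fun y hy hlex => ?_⟩
      by_cases hya : y γ = a
      · exact hm y ⟨hy, hya⟩ hlex
      · have h1 : a < y γ := lt_of_le_of_ne (hmin' y hy γ hγβ) (Ne.symm hya)
        obtain ⟨b, h2, h3⟩ := hlex
        have h4 : γ < b := by
          by_contra hcon
          have := h3 γ (not_lt.1 hcon)
          rw [hma] at this
          exact absurd h1 (not_lt.2 this)
        rcases lt_or_ge b β with h | h
        · rw [hconst m hmS hma b h4.le h] at h2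
          exact absurd h2 (not_lt.2 (hmin' y hy b h))
        · rw [hagree y hy m hmS b h] at h2
          exact lt_irrefl _ h2
    · push Not at hβ
      refine ⟨x₀, hx₀, fun y hy hlex => ?_⟩
      obtain ⟨b, h2, _⟩ := hlex
      rw [hagree y hy x₀ hx₀ b (hβ b)] at h2
      exact lt_irrefl _ h2

theorem lexTop_min [OrderTop B] (S : Set (B → A)) (hS : S.Nonempty) (hanti : ∀ x ∈ S, Antitone x) :
    ∃ m ∈ S, ∀ y ∈ S, ¬ lexTop y m := by
  obtain ⟨x₀, hx₀, hmin⟩ := WellFounded.has_min (r := fun x y : B → A => x ⊤ < y ⊤)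
    (InvImage.wf (fun x : B → A => x ⊤) wellFounded_lt) S hS
  obtain ⟨m, ⟨hmS, hm1⟩, hm2⟩ := lexTop_min_aux (⊤ : B) {x | x ∈ S ∧ x ⊤ = x₀ ⊤} ⟨x₀, hx₀, rfl⟩
    (fun x hx => hanti x hx.1) (fun x hx y hy c hc => by
      rw [top_le_iff.1 hc, hx.2, hy.2])
  refine ⟨m, hmS, fun y hy hlex => hm2 y ⟨hy, ?_⟩ hlex⟩
  exact le_antisymm (hm1 ▸ lexTop_top hlex) (not_lt.1 (hmin y hy))

/-- The order of a set of antitone functions. -/
theorem isWellOrder_lexTop [OrderTop B] (E : Set (B → A)) (hE : ∀ x ∈ E, Antitone x) :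
    IsWellOrder E fun x y => lexTop x.1 y.1 := {
  trichotomous := by
    intro x y h1 h2
    rcases lexTop_trichotomous (hE x.1 x.2) (hE y.1 y.2) with h | h | h
    · exact absurd h h1
    · exact Subtype.ext h
    · exact absurd h h2
  wf := by
    rw [WellFounded.wellFounded_iff_has_min]
    intro S hS
    obtain ⟨m, ⟨m', hm', hmm⟩, hm⟩ := lexTop_min (Subtype.val '' S) (hS.image _) (by
      rintro _ ⟨x, _, rfl⟩
      exact hE x.1 x.2)
    refine ⟨m', hm', fun x hx hlex => hm x.1 ⟨x, hx, rfl⟩ ?_⟩
    rw [← hmm]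
    exact hlex }

end Lex


/-! ## Monotonic algebras -/

section Alg

variable {F : Type} {ar : F → ℕ} {A : Type} [LinearOrder A]

theorem interp_mono {I : Interp ar A}
    (h : ∀ (f : F) (xs : Fin (ar f) → A) (i : Fin (ar f)) (x : A), xs i < x →
      I f xs < I f (update xs i x)) (f : F) (xs ys : Fin (ar f) → A) (hxy : ∀ i, xs i ≤ ys i) :
    I f xs ≤ I f ys := by
  classical
  have key : ∀ s : Finset (Fin (ar f)), I f xs ≤ I f fun i => if i ∈ s then ys i else xs i := by
    intro s
    induction s using Finset.induction_on with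
    | empty => simp
    | insert j s hj ih =>
      refine ih.trans ?_
      have e : (fun i => if i ∈ insert j s then ys i else xs i) =
          update (fun i => if i ∈ s then ys i else xs i) j (ys j) := by
        funext i
        by_cases hi : i = j
        · subst hi
          simp
        · simp [hi]
      rw [e]
      rcases (hxy j).lt_or_eq with h1 | h1
      · exact (h f (fun i => if i ∈ s then ys i else xs i) j (ys j) (by simp [hj, h1])).le
      · rw [← h1]
        have e2 : update (fun i => if i ∈ s then ys i else xs i) j (xs j) =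
            fun i => if i ∈ s then ys i else xs i := by
          funext i
          by_cases hi : i = j
          · subst hi
            simp [hj]
          · simp [hi]
        rw [e2]
  have := key Finset.univ
  simpa using this

theorem subterm_le [WellFoundedLT A] {I : Interp ar A}
    (h : ∀ (f : F) (xs : Fin (ar f) → A) (i : Fin (ar f)) (x : A), xs i < x →
      I f xs < I f (update xs i x)) (f : F) (xs : Fin (ar f) → A) (i : Fin (ar f)) :
    xs i ≤ I f xs := by
  by_contra hcon
  push Not at hcon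
  obtain ⟨m, hm, hmin⟩ := WellFounded.has_min (r := ((· < ·) : A → A → Prop)) wellFounded_lt
    {x | I f (update xs i x) < x} ⟨xs i, by simpa using hcon⟩
  have hm' : I f (update xs i m) < m := hm
  refine hmin (I f (update xs i m)) ?_ hm'
  have h1 := h f (update xs i (I f (update xs i m))) i m (by simpa using hm')
  rw [update_idem] at h1
  exact h1

variable [WellFoundedLT A]

/-- The index set of the stretched algebra. -/
abbrev Th : Type := (ℵ_ (ω : Ordinal.{0})).ord.ToType

theorem exists_theta_model [Countable F] {I : Interp ar A}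
    {R : Set (Term ar ℕ × Term ar ℕ)} (hI : Model ((· < ·) : A → A → Prop) I R) (a : ℕ → A)
    (ha : StrictMono a) (hcof : ∀ x, ∃ n, x < a n) :
    ∃ J : Interp ar Th, Model ((· < ·) : Th → Th → Prop) J R := by
  classical
  obtain ⟨X, hX⟩ : ∃ X : ℕ → Type, ∀ n : ℕ, X n = (ℵ_ (n : Ordinal.{0})).ord.ToType :=
    ⟨_, fun _ => rfl⟩
  have hXc : ∀ n, #(X n) = ℵ_ (n : Ordinal.{0}) := by
    intro n
    rw [hX]
    simp
  have hTh : #Th = ℵ_ (ω : Ordinal.{0}) := by simp
  have hj : ∀ n, Nonempty (X n ↪ Th) := by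
    intro n
    rw [← Cardinal.le_def, hXc, hTh, aleph_le_aleph]
    exact (natCast_lt_omega0 n).le
  obtain ⟨j⟩ : Nonempty (∀ n, X n ↪ Th) := ⟨fun n => (hj n).some⟩
  obtain ⟨V, hV⟩ : ∃ V : Type, V = (Σ n : ℕ, X n) := ⟨_, rfl⟩
  subst hV
  -- the generators
  obtain ⟨v, hv⟩ : ∃ v : (Σ n : ℕ, X n) → WithTop Th → A, ∀ z c,
      v z c = if c < (j z.1 z.2 : WithTop Th) then a (z.1 + 1) else a z.1 := ⟨_, fun _ _ => rfl⟩
  have hvanti : ∀ z, Antitone (v z) := by
    intro z c d hcd
    rw [hv, hv]
    split_ifs with h1 h2 h3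
    · exact le_rfl
    · exact absurd (hcd.trans_lt h1) h2
    · exact ha.monotone (Nat.le_succ _)
    · exact le_rfl
  have hvtop : ∀ z, v z ⊤ = a z.1 := by
    intro z
    rw [hv, if_neg (by simp)]
  obtain ⟨ev, hev⟩ : ∃ ev : Term ar (Σ n : ℕ, X n) → WithTop Th → A,
      ev = fun t c => t.eval I fun z => v z c := ⟨_, rfl⟩
  have hevanti : ∀ t, Antitone (ev t) := by
    intro t
    rw [hev]
    induction t with
    | var z => exact hvanti z
    | app f ts ih =>
      intro c d hcd
      exact interp_mono hI.mono f _ _ fun i => ih i hcd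
  have hevvar : ∀ z, ev (.var z) = v z := by
    intro z
    rw [hev]
    rfl
  obtain ⟨E, hE⟩ : ∃ E : Set (WithTop Th → A), ∀ x, x ∈ E ↔ ∃ t, ev t = x :=
    ⟨Set.range ev, fun _ => Iff.rfl⟩
  have hEanti : ∀ x ∈ E, Antitone x := by
    intro x hx
    obtain ⟨t, rfl⟩ := (hE x).1 hx
    exact hevanti t
  have hWO := isWellOrder_lexTop E hEanti
  -- the initial segments are small
  have hinit : ∀ x : E, #{y : E // lexTop y.1 x.1} < ℵ_ (ω : Ordinal.{0}) := by
    intro x
    obtain ⟨m, hm⟩ := hcof (x.1 ⊤)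
    have key : ∀ t : Term ar (Σ n : ℕ, X n), ev t ⊤ < a m → ∃ t' : Term ar (Σ n : Fin m, X n),
        (fun c => t'.eval I fun z => v ⟨z.1, z.2⟩ c) = ev t := by
      intro t
      induction t with
      | var z =>
        intro h
        have h1 : a z.1 < a m := by
          rw [← hvtop z]
          simpa [hev, Term.eval] using h
        exact ⟨.var ⟨⟨z.1, ha.lt_iff_lt.1 h1⟩, z.2⟩, by rw [hev]; rfl⟩
      | app f ts ih =>
        intro h
        have h1 : ∀ i, ev (ts i) ⊤ < a m := by
          intro i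
          refine lt_of_le_of_lt ?_ h
          rw [hev]
          exact subterm_le hI.mono f (fun i => (ts i).eval I fun z => v z ⊤) i
        choose t' ht' using fun i => ih i (h1 i)
        refine ⟨.app f t', ?_⟩
        rw [hev]
        funext c
        simp only [Term.eval]
        congr 1
        funext i
        have := congrFun (ht' i) c
        rw [hev] at this
        exact this
    have key2 : ∀ y : {y : E // lexTop y.1 x.1}, ∃ t' : Term ar (Σ n : Fin m, X n),
        (fun c => t'.eval I fun z => v ⟨z.1, z.2⟩ c) = y.1.1 := by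
      intro y
      obtain ⟨t, ht⟩ : ∃ t, ev t = y.1.1 := (hE _).1 y.1.2
      rw [← ht]
      refine key t ?_
      rw [ht]
      exact (lexTop_top y.2).trans_lt hm
    choose t' ht' using key2
    have hinj : Injective t' := by
      intro y z hyz
      apply Subtype.ext
      apply Subtype.ext
      rw [← ht' y, ← ht' z, hyz]
    have h1 : #{y : E // lexTop y.1 x.1} ≤ #(Term ar (Σ n : Fin m, X n)) := mk_le_of_injective hinj
    have h2 : #(Term ar (Σ n : Fin m, X n)) ≤ #(List (F ⊕ (Σ n : Fin m, X n))) :=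
      mk_le_of_injective trav_injective
    have h3 := mk_list_le_max (F ⊕ (Σ n : Fin m, X n))
    have h4 : #(Σ n : Fin m, X n) ≤ ℵ_ (m : Ordinal.{0}) := by
      rw [Cardinal.mk_sigma]
      refine (Cardinal.sum_le_sum _ (fun _ => ℵ_ (m : Ordinal.{0})) ?_).trans ?_
      · intro n
        rw [hXc, aleph_le_aleph]
        exact_mod_cast n.2.le
      · rw [Cardinal.sum_const']
        refine (mul_le_mul_left (Cardinal.mk_le_aleph0 (α := Fin m)) _).trans ?_
        rw [aleph0_mul_aleph]
    have h5 : #(F ⊕ (Σ n : Fin m, X n)) ≤ ℵ_ (m : Ordinal.{0}) := by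
      rw [Cardinal.mk_sum, Cardinal.lift_id, Cardinal.lift_id]
      exact Cardinal.add_le_of_le (aleph0_le_aleph _)
        ((Cardinal.mk_le_aleph0 (α := F)).trans (aleph0_le_aleph _)) h4
    have h6 : #{y : E // lexTop y.1 x.1} ≤ ℵ_ (m : Ordinal.{0}) :=
      h1.trans (h2.trans (h3.trans (max_le (aleph0_le_aleph _) h5)))
    exact h6.trans_lt (aleph_lt_aleph.2 (natCast_lt_omega0 m))
  -- the algebra is large
  have hlarge : ∀ n : ℕ, ℵ_ (n : Ordinal.{0}) ≤ #E := by
    intro n
    rw [← hXc n]
    have hmem : ∀ b : X n, ev (.var ⟨n, b⟩) ∈ E := fun b => (hE _).2 ⟨_, rfl⟩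
    refine mk_le_of_injective (f := fun b : X n => (⟨ev (.var ⟨n, b⟩), hmem b⟩ : E)) ?_
    intro b b' hbb'
    have h1 : v ⟨n, b⟩ = v ⟨n, b'⟩ := by
      rw [← hevvar, ← hevvar]
      exact congrArg Subtype.val hbb'
    by_contra hne
    have h2 : j n b ≠ j n b' := fun h => hne ((j n).injective h)
    have h3 : a n < a (n + 1) := ha (Nat.lt_succ_self n)
    rcases lt_or_gt_of_ne h2 with h | h
    · have h4 := congrFun h1 (j n b : WithTop Th)
      rw [hv, hv, if_neg (lt_irrefl _), if_pos (WithTop.coe_lt_coe.2 h)] at h4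
      exact absurd h4 h3.ne
    · have h4 := congrFun h1 (j n b' : WithTop Th)
      rw [hv, hv, if_neg (lt_irrefl _), if_pos (WithTop.coe_lt_coe.2 h)] at h4
      exact absurd h4.symm h3.ne
  -- the order type
  have htype : Ordinal.type (fun x y : E => lexTop x.1 y.1) =
      Ordinal.type ((· < ·) : Th → Th → Prop) := by
    rw [type_toType]
    apply le_antisymm
    · by_contra hcon
      push Not at hcon
      obtain ⟨x, hx⟩ := typein_surj (fun x y : E => lexTop x.1 y.1) hcon
      have h1 := hinit x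
      have h2 : #{y : E // lexTop y.1 x.1} =
          (typein (fun x y : E => lexTop x.1 y.1) x).card := rfl
      rw [h2, hx, card_ord] at h1
      exact lt_irrefl _ h1
    · rw [Cardinal.ord_le, card_type, aleph_limit isSuccLimit_omega0]
      apply ciSup_le'
      rintro ⟨o, ho⟩
      obtain ⟨n, rfl⟩ := lt_omega0.1 ho
      exact hlarge n
  obtain ⟨e⟩ := Ordinal.type_eq.1 htype
  -- the algebra
  have hclosed : ∀ (f : F) (xs : Fin (ar f) → E), (fun c => I f fun i => (xs i).1 c) ∈ E := by
    intro f xs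
    have h1 : ∀ i, ∃ t, ev t = (xs i).1 := fun i => (hE _).1 (xs i).2
    choose t ht using h1
    refine (hE _).2 ⟨.app f t, ?_⟩
    rw [hev]
    funext c
    simp only [Term.eval]
    congr 1
    funext i
    rw [← ht i, hev]
  obtain ⟨J₀, hJ₀⟩ : ∃ J₀ : Interp ar E, ∀ f xs c, (J₀ f xs).1 c = I f fun i => (xs i).1 c :=
    ⟨fun f xs => ⟨_, hclosed f xs⟩, fun _ _ _ => rfl⟩
  have hJ₀eval : ∀ (t : Term ar ℕ) (w : ℕ → E) (c : WithTop Th),
      (t.eval J₀ w).1 c = t.eval I fun n => (w n).1 c := by
    intro t w c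
    induction t with
    | var x => rfl
    | app f ts ih =>
      simp only [Term.eval, hJ₀]
      congr 1
      funext i
      exact ih i
  have hJ₀model : Model (fun x y : E => lexTop x.1 y.1) J₀ R := {
    mono := by
      intro f xs i x hx
      obtain ⟨b, h1, h2⟩ := hx
      have hupd : ∀ c, (fun k => (update xs i x k).1 c) = update (fun k => (xs k).1 c) i (x.1 c) := by
        intro c
        funext k
        by_cases hk : k = i
        · subst hk
          simp
        · simp [update_of_ne hk]
      refine ⟨b, ?_, fun c hc => ?_⟩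
      · rw [hJ₀, hJ₀, hupd]
        exact hI.mono f _ i _ h1
      · rw [hJ₀, hJ₀, hupd]
        refine interp_mono hI.mono f _ _ fun k => ?_
        by_cases hk : k = i
        · subst hk
          simpa using h2 c hc
        · simp [update_of_ne hk]
    compat := by
      intro p hp w
      refine ⟨⊤, ?_, fun c _ => ?_⟩
      · rw [hJ₀eval, hJ₀eval]
        exact hI.compat p hp _
      · rw [hJ₀eval, hJ₀eval]
        exact (hI.compat p hp _).le }
  obtain ⟨J, hJ⟩ : ∃ J : Interp ar Th, ∀ f xs, J f xs = e (J₀ f fun i => e.symm (xs i)) :=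
    ⟨_, fun _ _ => rfl⟩
  have hJeval : ∀ (t : Term ar ℕ) (w : ℕ → Th), t.eval J w = e (t.eval J₀ fun n => e.symm (w n)) := by
    intro t w
    induction t with
    | var x => simp [Term.eval]
    | app f ts ih =>
      simp only [Term.eval, hJ]
      congr 2
      funext i
      rw [ih i]
      simp
  refine ⟨J, ?_, ?_⟩
  · intro f xs i x hx
    rw [hJ, hJ]
    have h1 := hJ₀model.mono f (fun k => e.symm (xs k)) i (e.symm x) (e.symm.map_rel_iff.2 hx)
    have h2 : (fun k => e.symm (update xs i x k)) = update (fun k => e.symm (xs k)) i (e.symm x) := by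
      funext k
      by_cases hk : k = i
      · subst hk
        simp
      · simp [update_of_ne hk]
    rw [h2]
    exact e.map_rel_iff.2 h1
  · intro p hp w
    rw [hJeval, hJeval]
    exact e.map_rel_iff.2 (hJ₀model.compat p hp _)

end Alg


/-! ## The theorem -/

section Main

variable {F : Type} {ar : F → ℕ}

theorem app_ne (t : Term ar (Extra ar)) : ∀ (f : F) (ts : Fin (ar f) → Ground ar) (i : Fin (ar f)),
    t = .app f ts → ts i ≠ t := by
  induction t with
  | var x =>
    intro f ts i h
    exact absurd h (by simp)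
  | app g us ih =>
    intro f ts i h
    simp only [Term.app.injEq] at h
    obtain ⟨rfl, h⟩ := h
    rw [heq_eq_eq] at h
    subst h
    intro h1
    exact ih i g us i h1 rfl

theorem ground_nonempty : Nonempty (Ground ar) := by
  by_cases h : ∃ f, ar f = 0
  · obtain ⟨f, hf⟩ := h
    exact ⟨.app f fun i => (Fin.elim0 (hf ▸ i))⟩
  · push Not at h
    exact ⟨.var ⟨(), h⟩⟩

theorem ground_countable [Countable F] : Countable (Ground ar) := by
  have h1 : Countable (Extra ar) := by
    unfold Extra
    infer_instance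
  exact (trav_injective (ar := ar) (V := Extra ar)).countable

theorem exists_cofinal {A : Type} [LinearOrder A] [Countable A] [Nonempty A]
    (h : ∀ x : A, ∃ y, x < y) : ∃ a : ℕ → A, StrictMono a ∧ ∀ x, ∃ n, x < a n := by
  choose g hg using h
  obtain ⟨e, he⟩ := exists_surjective_nat A
  obtain ⟨a, ha⟩ : ∃ a : ℕ → A, ∀ n, a (n + 1) = g (max (a n) (e n)) :=
    ⟨fun n => Nat.rec (e 0) (fun n x => g (max x (e n))) n, fun _ => rfl⟩
  refine ⟨a, strictMono_nat_of_lt_succ fun n => ?_, fun x => ?_⟩
  · rw [ha]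
    exact (le_max_left _ _).trans_lt (hg _)
  · obtain ⟨n, rfl⟩ := he x
    exact ⟨n + 1, by rw [ha]; exact (le_max_right _ _).trans_lt (hg _)⟩

theorem eval_app_eq_subst (t : Term ar ℕ) (σ : ℕ → Ground ar) :
    t.eval (fun f ts => Term.app f ts) σ = t.subst σ := by
  induction t with
  | var x => rfl
  | app f ts ih =>
    simp only [Term.eval, Term.subst]
    congr 1
    funext i
    exact ih i

theorem theta_model_of_tt [Countable F] {R : Set (Term ar ℕ × Term ar ℕ)}
    (h : TotallyTerminating R) :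
    ∃ J : Interp ar Th, Model ((· < ·) : Th → Th → Prop) J R := by
  classical
  obtain ⟨gt, hWO, hmono, hcompat⟩ := h
  have := ground_countable (ar := ar)
  have := ground_nonempty (ar := ar)
  letI : LinearOrder (Ground ar) := linearOrderOfSTO fun s t => gt t s
  have hlt : ∀ s t : Ground ar, s < t ↔ gt t s := fun _ _ => Iff.rfl
  haveI : WellFoundedLT (Ground ar) := ⟨hWO.wf⟩
  by_cases hpos : ∃ f, 0 < ar f
  · obtain ⟨f, hf⟩ := hpos
    have hI : Model ((· < ·) : Ground ar → Ground ar → Prop) (fun f ts => Term.app f ts) R := {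
      mono := fun f xs i x hx => hmono f xs i x hx
      compat := fun p hp σ => by
        rw [eval_app_eq_subst, eval_app_eq_subst]
        exact hcompat p hp σ }
    obtain ⟨a, ha, hcof⟩ := exists_cofinal (A := Ground ar) fun x =>
      ⟨.app f fun _ => x, lt_of_le_of_ne
        (subterm_le (I := fun f ts => Term.app f ts) hI.mono f (fun _ => x) ⟨0, hf⟩)
        (app_ne _ f (fun _ => x) ⟨0, hf⟩ rfl)⟩
    exact exists_theta_model hI a ha hcof
  · push Not at hpos
    have h0 : ∀ f, ar f = 0 := fun f => Nat.le_zero.1 (hpos f)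
    have hemp : ∀ f, IsEmpty (Fin (ar f)) := fun f => by rw [h0 f]; infer_instance
    have hle : Ordinal.type ((· < ·) : Ground ar → Ground ar → Prop) ≤
        Ordinal.type ((· < ·) : Th → Th → Prop) := by
      rw [type_toType]
      apply le_of_lt
      rw [Cardinal.lt_ord, card_type]
      exact (Cardinal.mk_le_aleph0 (α := Ground ar)).trans_lt
        (aleph0_lt_aleph.2 omega0_pos)
    obtain ⟨e⟩ := type_le_iff'.1 hle
    have happ : ∀ (f : F) (ts ts' : Fin (ar f) → Ground ar), Term.app f ts = Term.app f ts' := by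
      intro f ts ts'
      congr 1
      funext i
      exact (hemp f).elim i
    refine ⟨fun f _ => e (.app f fun i => (hemp f).elim i), ?_, ?_⟩
    · intro f xs i
      exact (hemp f).elim i
    · rintro ⟨l, r⟩ hp w
      have h1 := hcompat (l, r) hp
      simp only at h1 ⊢
      cases l with
      | var x =>
        exfalso
        cases r with
        | var y =>
          obtain ⟨s⟩ := ground_nonempty (ar := ar)
          exact lt_irrefl s (h1 fun _ => s)
        | app g us =>
          have h2 := h1 fun _ => .app g fun i => (hemp g).elim i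
          refine lt_irrefl (Term.app g (fun i => (hemp g).elim i) : Ground ar) ?_
          rw [hlt]
          have h3 : (Term.app g us).subst (fun _ => (Term.app g fun i => (hemp g).elim i :
              Ground ar)) = (Term.app g (fun i => (hemp g).elim i) : Ground ar) := happ _ _ _
          rw [h3] at h2
          exact h2
      | app f ts =>
        cases r with
        | var y =>
          exfalso
          have h2 := h1 fun _ => .app f fun i => (hemp f).elim i
          refine lt_irrefl (Term.app f (fun i => (hemp f).elim i) : Ground ar) ?_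
          rw [hlt]
          have h3 : (Term.app f ts).subst (fun _ => (Term.app f fun i => (hemp f).elim i :
              Ground ar)) = (Term.app f (fun i => (hemp f).elim i) : Ground ar) := happ _ _ _
          rw [h3] at h2
          exact h2
        | app g us =>
          obtain ⟨s⟩ := ground_nonempty (ar := ar)
          have h2 := h1 fun _ => s
          simp only [Term.eval]
          refine e.map_rel_iff.2 ?_
          rw [hlt]
          have h3 : (Term.app f ts).subst (fun _ => s) =
            (Term.app f (fun i => (hemp f).elim i) : Ground ar) := happ _ _ _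
          have h4 : (Term.app g us).subst (fun _ => s) =
            (Term.app g (fun i => (hemp g).elim i) : Ground ar) := happ _ _ _
          rw [h3, h4] at h2
          exact h2

variable {F₁ F₂ : Type} {ar₁ : F₁ → ℕ} {ar₂ : F₂ → ℕ}

/-- The interpretation of the union of two signatures. -/
def sumInterp {A : Type} (J₁ : Interp ar₁ A) (J₂ : Interp ar₂ A) : Interp (Sum.elim ar₁ ar₂) A
  | .inl f => J₁ f
  | .inr f => J₂ f

theorem eval_inl {A V : Type} (J₁ : Interp ar₁ A) (J₂ : Interp ar₂ A) (v : V → A)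
    (t : Term ar₁ V) : (t.inl (ar₂ := ar₂)).eval (sumInterp J₁ J₂) v = t.eval J₁ v := by
  induction t with
  | var x => rfl
  | app f ts ih =>
    simp only [Term.inl, Term.eval]
    show J₁ f _ = J₁ f _
    congr 1
    funext i
    exact ih i

theorem eval_inr {A V : Type} (J₁ : Interp ar₁ A) (J₂ : Interp ar₂ A) (v : V → A)
    (t : Term ar₂ V) : (t.inr (ar₁ := ar₁)).eval (sumInterp J₁ J₂) v = t.eval J₂ v := by
  induction t with
  | var x => rfl
  | app f ts ih =>
    simp only [Term.inr, Term.eval]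
    show J₂ f _ = J₂ f _
    congr 1
    funext i
    exact ih i

/-- Total termination is modular for countable signatures. -/
theorem modular [Countable F₁] [Countable F₂] (R₁ : Set (Term ar₁ ℕ × Term ar₁ ℕ))
    (R₂ : Set (Term ar₂ ℕ × Term ar₂ ℕ)) (h₁ : TotallyTerminating R₁)
    (h₂ : TotallyTerminating R₂) : TotallyTerminating (union R₁ R₂) := by
  obtain ⟨J₁, hJ₁⟩ := theta_model_of_tt h₁
  obtain ⟨J₂, hJ₂⟩ := theta_model_of_tt h₂
  have hne : Nonempty Th := by
    rw [← Cardinal.mk_ne_zero_iff]
    simp only [Cardinal.mk_toType, card_ord]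
    exact (aleph_pos _).ne'
  refine totallyTerminating_of_model ((· < ·) : Th → Th → Prop) (sumInterp J₁ J₂) _ ⟨?_, ?_⟩
  · rintro (f | f) xs i x hx
    · exact hJ₁.mono f xs i x hx
    · exact hJ₂.mono f xs i x hx
  · rintro p (⟨q, hq, rfl⟩ | ⟨q, hq, rfl⟩) v
    · simp only [eval_inl]
      exact hJ₁.compat q hq v
    · simp only [eval_inr]
      exact hJ₂.compat q hq v

end Main

end Pool.Agent.V11233.TT
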